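import Pool.Agent.Run7.h427.CD.Trans
import Pool.Agent.Run7.h427.PL.Glue

/-!
# Gluing irreducible representations of subgroups with coprime indices
-/

set_option autoImplicit false

namespace Run7.h427.CD

open Matrix Run7.h427.DS Run7.h427.PL

variable {Γ : Type} [Group Γ] {k : Type} [Field k] {n : ℕ}

/-- compatibility of the traces -/
def Comp {J : Type} (H : J → Subgroup Γ) (ρ : ∀ j, H j →* GL (Fin n) k) : Prop :=
  ∀ (i j : J) (γ x : Γ) (hx : x ∈ H i) (hx' : γ * x * γ⁻¹ ∈ H j),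
    (ρ j ⟨γ * x * γ⁻¹, hx'⟩ : Matrix (Fin n) (Fin n) k).trace =
      (ρ i ⟨x, hx⟩ : Matrix (Fin n) (Fin n) k).trace

/-- the commutant consists of scalars -/
def Scal {G : Type} [Group G] (σ : G →* GL (Fin n) k) : Prop :=
  ∀ A : GL (Fin n) k, (∀ x, σ x * A = A * σ x) → A ∈ Subgroup.center (GL (Fin n) k)

theorem trace_eq_of_one {J : Type} {H : J → Subgroup Γ} {ρ : ∀ j, H j →* GL (Fin n) k}
    (hc : Comp H ρ) (i j : J) (x : Γ) (hx : x ∈ H i) (hx' : x ∈ H j) :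
    (ρ j ⟨x, hx'⟩ : Matrix (Fin n) (Fin n) k).trace =
      (ρ i ⟨x, hx⟩ : Matrix (Fin n) (Fin n) k).trace := by
  have h1 : (1 : Γ) * x * 1⁻¹ = x := by group
  have h := hc i j 1 x hx (by rw [h1]; exact hx')
  rw [← h]
  congr 3
  exact Subtype.ext h1.symm

section lift

variable [CharZero k] {J : Type} {N : Subgroup Γ} [hNn : N.Normal] {H : J → Subgroup Γ}
  {σ : N →* GL (Fin n) k}

variable (σ) in
/-- the pairs of an element `γ` and a matrix which intertwines `σ` and its conjugate by `γ` -/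
def Hat : Subgroup (Γ × GL (Fin n) k) where
  carrier := {y | ∀ (x : Γ) (hx : x ∈ N), σ ⟨y.1 * x * y.1⁻¹, hNn.conj_mem x hx y.1⟩ =
    y.2 * σ ⟨x, hx⟩ * y.2⁻¹}
  one_mem' := by
    intro x hx
    have h1 : (⟨(1 : Γ × GL (Fin n) k).1 * x * (1 : Γ × GL (Fin n) k).1⁻¹,
        hNn.conj_mem x hx _⟩ : N) = ⟨x, hx⟩ := Subtype.ext (by
      change (1 : Γ) * x * 1⁻¹ = x
      group)
    rw [h1]
    change _ = (1 : GL (Fin n) k) * σ ⟨x, hx⟩ * 1⁻¹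
    group
  mul_mem' := by
    intro a b ha hb x hx
    have h1 := ha (b.1 * x * b.1⁻¹) (hNn.conj_mem x hx b.1)
    rw [hb x hx] at h1
    have h2 : (⟨(a * b).1 * x * (a * b).1⁻¹, hNn.conj_mem x hx _⟩ : N) =
        ⟨a.1 * (b.1 * x * b.1⁻¹) * a.1⁻¹, hNn.conj_mem _ (hNn.conj_mem x hx b.1) a.1⟩ :=
      Subtype.ext (by
        change a.1 * b.1 * x * (a.1 * b.1)⁻¹ = _
        group)
    rw [h2, h1]
    change _ = a.2 * b.2 * σ ⟨x, hx⟩ * (a.2 * b.2)⁻¹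
    group
  inv_mem' := by
    intro a ha x hx
    have hx' : a.1⁻¹ * x * a.1⁻¹⁻¹ ∈ N := hNn.conj_mem x hx a.1⁻¹
    have h1 := ha (a.1⁻¹ * x * a.1⁻¹⁻¹) hx'
    have h2 : (⟨a.1 * (a.1⁻¹ * x * a.1⁻¹⁻¹) * a.1⁻¹, hNn.conj_mem _ hx' a.1⟩ : N) = ⟨x, hx⟩ :=
      Subtype.ext (by
        change a.1 * (a.1⁻¹ * x * a.1⁻¹⁻¹) * a.1⁻¹ = x
        group)
    rw [h2] at h1
    change σ ⟨a.1⁻¹ * x * a.1⁻¹⁻¹, hx'⟩ = a.2⁻¹ * σ ⟨x, hx⟩ * a.2⁻¹⁻¹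
    rw [h1]
    group

omit [CharZero k] in
theorem mem_hat {y : Γ × GL (Fin n) k} : y ∈ Hat σ ↔ ∀ (x : Γ) (hx : x ∈ N),
    σ ⟨y.1 * x * y.1⁻¹, hNn.conj_mem x hx y.1⟩ = y.2 * σ ⟨x, hx⟩ * y.2⁻¹ := Iff.rfl

omit [CharZero k] in
theorem mem_hat_of {K : Subgroup Γ} (hK : N ≤ K) (r : K →* GL (Fin n) k)
    (hr : ∀ (x : Γ) (hx : x ∈ N), r ⟨x, hK hx⟩ = σ ⟨x, hx⟩) (γ : Γ) (hγ : γ ∈ K) :
    ((γ, r ⟨γ, hγ⟩) : Γ × GL (Fin n) k) ∈ Hat σ := by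
  intro x hx
  rw [← hr, ← hr, ← map_inv, ← map_mul, ← map_mul]
  rfl

/-- the conjugates of `σ` are isomorphic to `σ` -/
theorem exists_hat (hs : Semis σ)
    (ht : ∀ (γ x : Γ) (hx : x ∈ N), (σ ⟨γ * x * γ⁻¹, hNn.conj_mem x hx γ⟩ :
      Matrix (Fin n) (Fin n) k).trace = (σ ⟨x, hx⟩ : Matrix (Fin n) (Fin n) k).trace) (γ : Γ) :
    ∃ A : GL (Fin n) k, ((γ, A) : Γ × GL (Fin n) k) ∈ Hat σ := by
  let c : N →* N := (MulAut.conjNormal γ : MulAut N).toMonoidHom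
  have hcv : ∀ y : N, c y = ⟨γ * y * γ⁻¹, hNn.conj_mem y y.2 γ⟩ := by
    intro y
    apply Subtype.ext
    exact MulAut.conjNormal_apply γ y
  have hcs : Semis (σ.comp c) := by
    apply semis_comp hs
    have : c.range = ⊤ := by
      rw [MonoidHom.range_eq_top]
      exact (MulAut.conjNormal γ : MulAut N).surjective
    rw [this]
    infer_instance
  obtain ⟨C, hC⟩ := exists_iso (ρ := σ) (ρ' := σ.comp c) hs hcs (by
    intro y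
    have e : (σ.comp c) y = σ ⟨γ * y * γ⁻¹, hNn.conj_mem y y.2 γ⟩ := congrArg σ (hcv y)
    rw [e]
    exact (ht γ y y.2).symm)
  refine ⟨C, fun x hx => ?_⟩
  have e : (σ.comp c) ⟨x, hx⟩ = σ ⟨γ * x * γ⁻¹, hNn.conj_mem x hx γ⟩ := congrArg σ (hcv ⟨x, hx⟩)
  rw [← e]
  exact hC ⟨x, hx⟩

/-- two representations which extend `σ`, with the same traces up to conjugation, are equal up to the
same conjugation -/
theorem conj_eq (hN : N.FiniteIndex) (hσ : Scal σ) {K L : Subgroup Γ} (hK : N ≤ K) (hL : N ≤ L)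
    {r : K →* GL (Fin n) k} {s : L →* GL (Fin n) k} (hrs : Semis r) (hss : Semis s)
    (hr : ∀ (x : Γ) (hx : x ∈ N), r ⟨x, hK hx⟩ = σ ⟨x, hx⟩)
    (hs : ∀ (x : Γ) (hx : x ∈ N), s ⟨x, hL hx⟩ = σ ⟨x, hx⟩) {y : Γ × GL (Fin n) k}
    (hy : y ∈ Hat σ)
    (ht : ∀ (x : Γ) (hx : x ∈ K) (hx' : y.1 * x * y.1⁻¹ ∈ L),
      (s ⟨y.1 * x * y.1⁻¹, hx'⟩ : Matrix (Fin n) (Fin n) k).trace =
        (r ⟨x, hx⟩ : Matrix (Fin n) (Fin n) k).trace)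
    (x : Γ) (hx : x ∈ K) (hx' : y.1 * x * y.1⁻¹ ∈ L) :
    s ⟨y.1 * x * y.1⁻¹, hx'⟩ = y.2 * r ⟨x, hx⟩ * y.2⁻¹ := by
  let c : Γ →* Γ := (MulAut.conj y.1).toMonoidHom
  have hcv : ∀ z, c z = y.1 * z * y.1⁻¹ := fun z => rfl
  let M : Subgroup Γ := K ⊓ L.comap c
  have hNM : N ≤ M := fun z hz => ⟨hK hz, hL (hNn.conj_mem z hz y.1)⟩
  have hMf : M.FiniteIndex := Subgroup.finiteIndex_of_le hNM
  let i₁ : M →* K := Subgroup.inclusion inf_le_left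
  let i₂ : M →* L :=
    { toFun := fun z => ⟨y.1 * z * y.1⁻¹, z.2.2⟩
      map_one' := by
        apply Subtype.ext
        change y.1 * 1 * y.1⁻¹ = 1
        group
      map_mul' := fun a b => by
        apply Subtype.ext
        change y.1 * (a * b) * y.1⁻¹ = (y.1 * a * y.1⁻¹) * (y.1 * b * y.1⁻¹)
        group }
  have hi₁ : i₁.range.FiniteIndex := by
    rw [Subgroup.inclusion_range]
    infer_instance
  have hi₂ : i₂.range.FiniteIndex := by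
    have h1 : N.subgroupOf L ≤ i₂.range := by
      rintro ⟨z, hz⟩ hz'
      have hz2 : z ∈ N := Subgroup.mem_subgroupOf.mp hz'
      have hz3 : y.1⁻¹ * z * y.1⁻¹⁻¹ ∈ N := hNn.conj_mem z hz2 y.1⁻¹
      refine ⟨⟨y.1⁻¹ * z * y.1⁻¹⁻¹, hNM hz3⟩, ?_⟩
      apply Subtype.ext
      change y.1 * (y.1⁻¹ * z * y.1⁻¹⁻¹) * y.1⁻¹ = z
      group
    exact Subgroup.finiteIndex_of_le h1
  obtain ⟨C, hC⟩ := exists_iso (ρ := r.comp i₁) (ρ' := s.comp i₂) (semis_comp hrs _ hi₁)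
    (semis_comp hss _ hi₂) (fun z => (ht z z.2.1 z.2.2).symm)
  have hz : C⁻¹ * y.2 ∈ Subgroup.center (GL (Fin n) k) := by
    apply hσ
    rintro ⟨x, hx⟩
    have h1 : s ⟨y.1 * x * y.1⁻¹, (hNM hx).2⟩ = C * r ⟨x, hK hx⟩ * C⁻¹ := hC ⟨x, hNM hx⟩
    have h2 := hs (y.1 * x * y.1⁻¹) (hNn.conj_mem x hx y.1)
    have h3 : σ ⟨y.1 * x * y.1⁻¹, hNn.conj_mem x hx y.1⟩ = C * σ ⟨x, hx⟩ * C⁻¹ := by
      rw [← h2, ← hr]
      exact h1
    rw [hy x hx] at h3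
    calc σ ⟨x, hx⟩ * (C⁻¹ * y.2) = C⁻¹ * (C * σ ⟨x, hx⟩ * C⁻¹) * y.2 := by group
      _ = C⁻¹ * (y.2 * σ ⟨x, hx⟩ * y.2⁻¹) * y.2 := by rw [h3]
      _ = C⁻¹ * y.2 * σ ⟨x, hx⟩ := by group
  have h1 : s ⟨y.1 * x * y.1⁻¹, hx'⟩ = C * r ⟨x, hx⟩ * C⁻¹ := hC ⟨x, hx, hx'⟩
  rw [h1]
  have h2 : (C⁻¹ * y.2) * r ⟨x, hx⟩ = r ⟨x, hx⟩ * (C⁻¹ * y.2) :=
    ((Subgroup.mem_center_iff.mp hz) _).symm
  calc C * r ⟨x, hx⟩ * C⁻¹ = C * (r ⟨x, hx⟩ * (C⁻¹ * y.2)) * y.2⁻¹ := by group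
    _ = C * ((C⁻¹ * y.2) * r ⟨x, hx⟩) * y.2⁻¹ := by rw [h2]
    _ = y.2 * r ⟨x, hx⟩ * y.2⁻¹ := by group

open scoped IsMulCommutative in
/-- **Gluing.**  Representations of subgroups of coprime indices which extend one representation `σ`
of a normal subgroup `N` with scalar commutant, and whose traces are compatible, extend to `Γ`. -/
theorem glue_coprime (hN : N.FiniteIndex) (hNH : ∀ j, N ≤ H j)
    (hm : ∀ p : ℕ, p.Prime → ∃ j, ¬ p ∣ (H j).index) (hσ : Scal σ)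
    {ρ : ∀ j, H j →* GL (Fin n) k} (hs : ∀ j, Semis (ρ j))
    (hext : ∀ (j : J) (x : Γ) (hx : x ∈ N), ρ j ⟨x, hNH j hx⟩ = σ ⟨x, hx⟩) (hc : Comp H ρ) :
    ∃ R : Γ →* GL (Fin n) k, ∀ (j : J) (x : Γ) (hx : x ∈ H j), R x = ρ j ⟨x, hx⟩ := by
  classical
  obtain ⟨o, -⟩ := hm 2 Nat.prime_two
  have hσs : Semis σ := by
    have h1 : σ = (ρ o).comp (Subgroup.inclusion (hNH o)) := by
      ext1 x
      exact (hext o x x.2).symm
    rw [h1]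
    apply semis_comp (hs o)
    rw [Subgroup.inclusion_range]
    infer_instance
  have hht := exists_hat hσs (by
    intro γ x hx
    rw [← hext o _ (hNn.conj_mem x hx γ), ← hext o x hx]
    exact hc o o γ x (hNH o hx) (hNH o (hNn.conj_mem x hx γ)))
  let pr : Hat σ →* Γ := (MonoidHom.fst Γ (GL (Fin n) k)).comp (Hat σ).subtype
  have hpr : ∀ y : Hat σ, pr y = (y : Γ × GL (Fin n) k).1 := fun y => rfl
  have hsurj : Function.Surjective pr := by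
    intro γ
    obtain ⟨A, hA⟩ := hht γ
    exact ⟨⟨(γ, A), hA⟩, rfl⟩
  let E : J → Subgroup (Hat σ) := fun j => (H j).comap pr
  have hfi : ∀ j, (H j).FiniteIndex := fun j => Subgroup.finiteIndex_of_le (hNH j)
  have hidx : ∀ j, (E j).index = (H j).index := fun j =>
    Subgroup.index_comap_of_surjective (H j) hsurj
  have hE : ∀ j, (E j).FiniteIndex := fun j => ⟨by
    rw [hidx]
    exact (hfi j).index_ne_zero⟩
  have hcen : ∀ (j : J) (y : Hat σ) (hy : (y : Γ × GL (Fin n) k).1 ∈ H j),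
      (y : Γ × GL (Fin n) k).2 * (ρ j ⟨(y : Γ × GL (Fin n) k).1, hy⟩)⁻¹ ∈
        Subgroup.center (GL (Fin n) k) := by
    rintro j ⟨y, hyh⟩ hy
    apply hσ
    rintro ⟨x, hx⟩
    have h1 := mem_hat_of (hNH j) (ρ j) (hext j) y.1 hy x hx
    have h2 := hyh x hx
    have hx' : y.1⁻¹ * x * y.1⁻¹⁻¹ ∈ N := hNn.conj_mem x hx y.1⁻¹
    have h3 : (⟨y.1 * (y.1⁻¹ * x * y.1⁻¹⁻¹) * y.1⁻¹, hNn.conj_mem _ hx' y.1⟩ : N) = ⟨x, hx⟩ :=
      Subtype.ext (by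
        change y.1 * (y.1⁻¹ * x * y.1⁻¹⁻¹) * y.1⁻¹ = x
        group)
    have h4 := mem_hat_of (hNH j) (ρ j) (hext j) y.1 hy _ hx'
    have h5 := hyh _ hx'
    change σ ⟨y.1 * (y.1⁻¹ * x * y.1⁻¹⁻¹) * y.1⁻¹, _⟩ = _ at h4
    rw [h3] at h4 h5
    change σ ⟨x, hx⟩ = ρ j ⟨y.1, hy⟩ * σ ⟨_, hx'⟩ * (ρ j ⟨y.1, hy⟩)⁻¹ at h4
    change σ ⟨x, hx⟩ = y.2 * σ ⟨_, hx'⟩ * y.2⁻¹ at h5
    change σ ⟨x, hx⟩ * (y.2 * (ρ j ⟨y.1, hy⟩)⁻¹) = y.2 * (ρ j ⟨y.1, hy⟩)⁻¹ * σ ⟨x, hx⟩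
    generalize σ ⟨_, hx'⟩ = t at h4 h5
    generalize ρ j ⟨y.1, hy⟩ = u at h4
    calc σ ⟨x, hx⟩ * (y.2 * u⁻¹) = (y.2 * t * y.2⁻¹) * (y.2 * u⁻¹) := by rw [← h5]
      _ = y.2 * u⁻¹ * (u * t * u⁻¹) := by group
      _ = y.2 * u⁻¹ * σ ⟨x, hx⟩ := by rw [← h4]
  let f : ∀ j, E j →* Subgroup.center (GL (Fin n) k) := fun j =>
    { toFun := fun y => ⟨(y : Γ × GL (Fin n) k).2 * (ρ j ⟨(y : Γ × GL (Fin n) k).1, y.2⟩)⁻¹,
        hcen j y y.2⟩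
      map_one' := by
        apply Subtype.ext
        change (1 : GL (Fin n) k) * (ρ j ⟨1, _⟩)⁻¹ = 1
        have h1 : (⟨1, (H j).one_mem⟩ : H j) = 1 := rfl
        rw [h1, map_one, inv_one, one_mul]
      map_mul' := fun a b => by
        apply Subtype.ext
        have h1 : ρ j ⟨((a * b : E j) : Γ × GL (Fin n) k).1, (a * b).2⟩ =
            ρ j ⟨(a : Γ × GL (Fin n) k).1, a.2⟩ * ρ j ⟨(b : Γ × GL (Fin n) k).1, b.2⟩ := by
          rw [← map_mul]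
          rfl
        change ((a : Γ × GL (Fin n) k).2 * (b : Γ × GL (Fin n) k).2) *
            (ρ j ⟨((a * b : E j) : Γ × GL (Fin n) k).1, (a * b).2⟩)⁻¹ =
          ((a : Γ × GL (Fin n) k).2 * (ρ j ⟨(a : Γ × GL (Fin n) k).1, a.2⟩)⁻¹) *
            ((b : Γ × GL (Fin n) k).2 * (ρ j ⟨(b : Γ × GL (Fin n) k).1, b.2⟩)⁻¹)
        have h2 := Subgroup.mem_center_iff.mp (hcen j b b.2)
          ((ρ j ⟨(a : Γ × GL (Fin n) k).1, a.2⟩)⁻¹)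
        rw [h1]
        generalize ρ j ⟨(a : Γ × GL (Fin n) k).1, a.2⟩ = u at h2 ⊢
        generalize ρ j ⟨(b : Γ × GL (Fin n) k).1, b.2⟩ = v at h2 ⊢
        generalize (a : Γ × GL (Fin n) k).2 = A
        generalize (b : Γ × GL (Fin n) k).2 = B at h2 ⊢
        calc A * B * (u * v)⁻¹ = A * ((B * v⁻¹) * u⁻¹) := by group
          _ = A * (u⁻¹ * (B * v⁻¹)) := by rw [h2]
          _ = A * u⁻¹ * (B * v⁻¹) := by group }
  have hf : ∀ (j : J) (y : Hat σ) (hy : y ∈ E j), (f j ⟨y, hy⟩ : GL (Fin n) k) =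
      (y : Γ × GL (Fin n) k).2 * (ρ j ⟨(y : Γ × GL (Fin n) k).1, hy⟩)⁻¹ := fun j y hy => rfl
  have hstab : Stab E f := by
    intro j l g x hx hx'
    apply Subtype.ext
    rw [hf, hf]
    have h1 := conj_eq hN hσ (hNH j) (hNH l) (hs j) (hs l) (hext j) (hext l) g.2
      (fun z hz hz' => hc j l _ z hz hz') (x : Γ × GL (Fin n) k).1 hx hx'
    have h2 := Subgroup.mem_center_iff.mp (hcen j x hx) ((g : Γ × GL (Fin n) k).2)
    change ((g : Γ × GL (Fin n) k).2 * (x : Γ × GL (Fin n) k).2 * ((g : Γ × GL (Fin n) k).2)⁻¹) *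
      (ρ l ⟨(g : Γ × GL (Fin n) k).1 * (x : Γ × GL (Fin n) k).1 *
        ((g : Γ × GL (Fin n) k).1)⁻¹, hx'⟩)⁻¹ = _
    rw [h1]
    generalize ρ j ⟨(x : Γ × GL (Fin n) k).1, hx⟩ = u at h2 ⊢
    generalize (g : Γ × GL (Fin n) k).2 = A at h2 ⊢
    generalize (x : Γ × GL (Fin n) k).2 = B at h2 ⊢
    calc A * B * A⁻¹ * (A * u * A⁻¹)⁻¹ = (A * (B * u⁻¹)) * A⁻¹ := by group
      _ = ((B * u⁻¹) * A) * A⁻¹ := by rw [h2]
      _ = B * u⁻¹ := by group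
  obtain ⟨V, hV⟩ := exists_hom hstab (fun p hp => by
    obtain ⟨j, hj⟩ := hm p hp
    exact ⟨j, by rw [hidx]; exact hj⟩)
  let Rh : Hat σ →* GL (Fin n) k :=
    { toFun := fun y => (V y : GL (Fin n) k)⁻¹ * (y : Γ × GL (Fin n) k).2
      map_one' := by
        rw [map_one]
        change (1 : GL (Fin n) k)⁻¹ * 1 = 1
        group
      map_mul' := fun a b => by
        rw [map_mul]
        change ((V a : GL (Fin n) k) * (V b : GL (Fin n) k))⁻¹ *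
          ((a : Γ × GL (Fin n) k).2 * (b : Γ × GL (Fin n) k).2) = _
        have h1 := Subgroup.mem_center_iff.mp (Subgroup.inv_mem _ (V b).2) ((a : Γ × GL (Fin n) k).2)
        have h2 := Subgroup.mem_center_iff.mp (Subgroup.inv_mem _ (V b).2) ((V a : GL (Fin n) k)⁻¹)
        generalize (V b : GL (Fin n) k) = v at h1 h2 ⊢
        generalize (V a : GL (Fin n) k) = u at h2 ⊢
        generalize (a : Γ × GL (Fin n) k).2 = A at h1 ⊢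
        generalize (b : Γ × GL (Fin n) k).2 = B
        calc (u * v)⁻¹ * (A * B) = (v⁻¹ * u⁻¹) * (A * B) := by group
          _ = (u⁻¹ * v⁻¹) * (A * B) := by rw [h2]
          _ = u⁻¹ * (v⁻¹ * A) * B := by group
          _ = u⁻¹ * (A * v⁻¹) * B := by rw [h1]
          _ = u⁻¹ * A * (v⁻¹ * B) := by group }
  have hRh : ∀ y : Hat σ, Rh y = (V y : GL (Fin n) k)⁻¹ * (y : Γ × GL (Fin n) k).2 := fun y => rfl
  have hker : pr.ker ≤ Rh.ker := by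
    intro y hy
    rw [MonoidHom.mem_ker] at hy ⊢
    have hy1 : (y : Γ × GL (Fin n) k).1 = 1 := hy
    have hyE : y ∈ E o := by
      change pr y ∈ H o
      rw [hy]
      exact (H o).one_mem
    rw [hRh, hV o y hyE, hf]
    have h1 : ρ o ⟨(y : Γ × GL (Fin n) k).1, hyE⟩ = 1 := by
      have h2 : (⟨(y : Γ × GL (Fin n) k).1, hyE⟩ : H o) = 1 := Subtype.ext hy1
      rw [h2, map_one]
    rw [h1]
    group
  let R : Γ →* GL (Fin n) k := (pr.liftOfSurjective hsurj) ⟨Rh, hker⟩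
  have hR : ∀ y : Hat σ, R (pr y) = Rh y := fun y => by
    have := MonoidHom.liftOfRightInverse_comp_apply pr _ (Function.rightInverse_surjInv hsurj)
      ⟨Rh, hker⟩ y
    exact this
  refine ⟨R, fun j x hx => ?_⟩
  let y : Hat σ := ⟨(x, ρ j ⟨x, hx⟩), mem_hat_of (hNH j) (ρ j) (hext j) x hx⟩
  have h1 := hR y
  have h2 : pr y = x := rfl
  have hyE : y ∈ E j := hx
  rw [h2, hRh, hV j y hyE, hf] at h1
  rw [h1]
  change ((ρ j ⟨x, hx⟩) * (ρ j ⟨x, hx⟩)⁻¹)⁻¹ * ρ j ⟨x, hx⟩ = ρ j ⟨x, hx⟩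
  group

end lift

end Run7.h427.CD
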