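import Mathlib

/-!
# Gluing homomorphisms of subgroups of coprime indices with the transfer
-/

set_option autoImplicit false

namespace Run7.h427.CD

open Subgroup MulAction

variable {E A : Type} [Group E] [CommGroup A] {J : Type}

/-- compatible homomorphisms of subgroups -/
def Stab (H : J → Subgroup E) (f : ∀ j, H j →* A) : Prop :=
  ∀ (j l : J) (g x : E) (hx : x ∈ H j) (hx' : g * x * g⁻¹ ∈ H l),
    f l ⟨g * x * g⁻¹, hx'⟩ = f j ⟨x, hx⟩

theorem transfer_eq {H : J → Subgroup E} {f : ∀ j, H j →* A} (h : Stab H f) (j l : J)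
    [(H l).FiniteIndex] (x : E) (hx : x ∈ H j) :
    MonoidHom.transfer (f l) x = (f j ⟨x, hx⟩) ^ (H l).index := by
  classical
  let := (H l).fintypeQuotientOfFiniteIndex
  rw [MonoidHom.transfer_eq_prod_quotient_orbitRel_zpowers_quot,
    index_eq_sum_minimalPeriod (H l) x, ← Finset.prod_pow_eq_pow_sum]
  refine Finset.prod_congr rfl fun q _ => ?_
  have hm : x ^ Function.minimalPeriod (x • ·) q.out ∈ H j := (H j).pow_mem hx _
  have h1 := h j l (q.out.out)⁻¹ (x ^ Function.minimalPeriod (x • ·) q.out) hm (by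
    rw [inv_inv]
    exact QuotientGroup.out_conj_pow_minimalPeriod_mem (H l) x q.out)
  have h2 : f j ⟨x ^ Function.minimalPeriod (x • ·) q.out, hm⟩ =
      f j ⟨x, hx⟩ ^ Function.minimalPeriod (x • ·) q.out := by
    rw [← map_pow]
    rfl
  rw [← h2, ← h1]
  congr 1
  apply Subtype.ext
  change _ = (q.out.out)⁻¹ * x ^ Function.minimalPeriod (x • ·) q.out * ((q.out.out)⁻¹)⁻¹
  rw [inv_inv]

/-- the indices have greatest common divisor one -/
theorem exists_coeff (m : J → ℕ) (hm : ∀ p : ℕ, p.Prime → ∃ j, ¬ p ∣ m j) :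
    ∃ c : J →₀ ℤ, (c.sum fun j a => a * (m j : ℤ)) = 1 := by
  have h1 : (1 : ℤ) ∈ Ideal.span (Set.range fun j => (m j : ℤ)) := by
    obtain ⟨d, hd⟩ := (IsPrincipalIdealRing.principal
      (Ideal.span (Set.range fun j => (m j : ℤ)))).principal
    have hd' : Ideal.span (Set.range fun j => (m j : ℤ)) = Ideal.span {d} := hd
    have h2 : ∀ j, d ∣ (m j : ℤ) := by
      intro j
      rw [← Ideal.mem_span_singleton, ← hd']
      exact Ideal.subset_span ⟨j, rfl⟩
    have h3 : d.natAbs = 1 := by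
      by_contra hne
      obtain ⟨p, hp, hpd⟩ := Nat.exists_prime_and_dvd hne
      obtain ⟨j, hj⟩ := hm p hp
      exact hj (hpd.trans (Int.natAbs_dvd_natAbs.mpr (h2 j)))
    rw [hd', Ideal.mem_span_singleton]
    exact (Int.isUnit_iff_natAbs_eq.mpr h3).dvd
  exact (Finsupp.mem_ideal_span_range_iff_exists_finsupp).mp h1

theorem prod_zpow_sum (s : Finset J) (a : A) (g : J → ℤ) :
    ∏ l ∈ s, a ^ g l = a ^ ∑ l ∈ s, g l := by
  classical
  induction s using Finset.induction_on with
  | empty => simp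
  | insert l s hl ih => rw [Finset.prod_insert hl, Finset.sum_insert hl, ih, zpow_add]

/-- **Gluing homomorphisms.**  Compatible homomorphisms of subgroups with coprime indices extend to
the whole group. -/
theorem exists_hom {H : J → Subgroup E} [∀ j, (H j).FiniteIndex] {f : ∀ j, H j →* A}
    (h : Stab H f) (hm : ∀ p : ℕ, p.Prime → ∃ j, ¬ p ∣ (H j).index) :
    ∃ V : E →* A, ∀ (j : J) (x : E) (hx : x ∈ H j), V x = f j ⟨x, hx⟩ := by
  obtain ⟨c, hc⟩ := exists_coeff (fun j => (H j).index) hm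
  let V : E →* A :=
    { toFun := fun x => ∏ j ∈ c.support, (MonoidHom.transfer (f j) x) ^ c j
      map_one' := by simp
      map_mul' := fun x y => by
        rw [← Finset.prod_mul_distrib]
        refine Finset.prod_congr rfl fun j _ => ?_
        rw [map_mul, mul_zpow] }
  refine ⟨V, fun j x hx => ?_⟩
  have h1 : V x = ∏ l ∈ c.support, (f j ⟨x, hx⟩) ^ (c l * ((H l).index : ℤ)) := by
    change (∏ l ∈ c.support, (MonoidHom.transfer (f l) x) ^ c l) = _
    refine Finset.prod_congr rfl fun l _ => ?_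
    rw [transfer_eq h j l x hx, ← zpow_natCast, ← zpow_mul, mul_comm]
  rw [h1, prod_zpow_sum]
  have h2 : (∑ l ∈ c.support, c l * ((H l).index : ℤ)) = 1 := hc
  rw [h2, zpow_one]

/-- subgroups with coprime indices generate the group -/
theorem eq_top_of_coprime {H : J → Subgroup E} (hm : ∀ p : ℕ, p.Prime → ∃ j, ¬ p ∣ (H j).index)
    (K : Subgroup E) (hK : ∀ j, H j ≤ K) : K = ⊤ := by
  rw [← Subgroup.index_eq_one]
  by_contra hne
  obtain ⟨p, hp, hpd⟩ := Nat.exists_prime_and_dvd hne
  obtain ⟨j, hj⟩ := hm p hp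
  exact hj (hpd.trans (Subgroup.index_dvd_of_le (hK j)))

end Run7.h427.CD
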